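import Pool.Agent.Lib.MP_830418_an.Flat.Asm

/-!
Problem MP_830418_an, the full statement S05239: interface of the modules.
-/

open Finset

namespace Pool.Agent.PI

open Pool.Agent.PC

/-- there is no mean in the sense of the frozen statement -/
def NoMean (G : Type) [Group G] : Prop :=
  ¬ ∃ m : Set G → ℝ, (∀ A, 0 ≤ m A) ∧ m Set.univ = 1 ∧
      (∀ A B : Set G, Disjoint A B → m (A ∪ B) = m A + m B) ∧
      ∀ (g : G) (A : Set G), m ((fun x => g * x) '' A) = m A

/-- the letters `1, y s` -/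
def lt {G : Type} [Group G] (y : ℕ → G) : ℕ → Fin 2 → G := fun s i => if i = 0 then 1 else y s

/-- Case A: for every `m` and `ε` there are `y_0, ..., y_{m-1}` such that all quotients of different
products `y_0^{t_0} ... y_{m-1}^{t_{m-1}}` have infinitely many conjugates, and a finitely supported probability
on `G` which is almost invariant under all these products. -/
def CaseA (G : Type) [Group G] : Prop :=
  ∀ (m : ℕ) (ε : ℝ), 0 < ε → ∃ (y : ℕ → G) (f : G →₀ ℝ),
    (∀ x, 0 ≤ f x) ∧ (f.sum fun _ a => a) = 1 ∧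
    (∀ t : ℕ → Fin 2, ∑' x, |f (pr (lt y) m t * x) - f x| ≤ ε) ∧
    ∀ t s : ℕ → Fin 2, (∃ k < m, t k ≠ s k) → NonFC (pr (lt y) m t * (pr (lt y) m s)⁻¹)

/-- Case B: a subgroup of `G` maps onto an infinite group in which the centralisers of all
nontrivial elements are finite (with a uniform bound). -/
def CaseB (G : Type) [Group G] : Prop :=
  ∃ (Y : Subgroup G) (X : Type) (_ : Group X) (π : Y →* X), Function.Surjective π ∧
    Infinite X ∧ ∃ n : ℕ, ∀ x : X, x ≠ 1 →
      {z : X | Commute x z}.Finite ∧ {z : X | Commute x z}.ncard ≤ n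

/-- unbounded ratio on finitely supported functions -/
def Unb (G : Type) [Group G] (p : ℝ) : Prop :=
  ∀ R : ℝ, 0 ≤ R → ∃ f : G →₀ ℂ, ConvLe p 1 (f : G → ℂ) ∧ ¬ ConvLe p R (cst (f : G → ℂ))

/-- helper34 -/
def S_cases : Prop := ∀ (G : Type) [Group G], NoMean G → CaseA G ∨ CaseB G

/-- helper83 -/
def S_A : Prop := ∀ (G : Type) [Group G], CaseA G → ∀ p : ℝ, 1 < p → p < 2 → Unb G p

/-- helper85 -/
def S_B : Prop := ∀ (G : Type) [Group G], CaseB G → ∀ p : ℝ, 1 < p → p < 2 → Unb G p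

theorem asmI (hban : S_ban.{0}) (hdual : S_dual.{0}) (h : S_cases) (hA : S_A) (hB : S_B)
    (G : Type) [Group G] (hG : NoMean G) (p : ℝ) (hp : 1 < p) (hp2 : p ≠ 2) :
    ∃ f : G → ℂ, (∃ C : ℝ, ConvLe p C f) ∧ ¬ ∃ C : ℝ, ConvLe p C (cst f) := by
  have hU : ∀ q : ℝ, 1 < q → q < 2 → Unb G q := by
    intro q hq hq2
    rcases h G hG with h1 | h1
    · exact hA G h1 q hq hq2
    · exact hB G h1 q hq hq2
  rcases lt_or_gt_of_ne hp2 with h2 | h2
  · exact hban p hp G fun R hR => hU p hp h2 R hR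
  · have hp0 : 0 < p := by linarith
    set q : ℝ := p / (p - 1) with hq
    have hp1 : 0 < p - 1 := by linarith
    have hq1 : 1 < q := by
      rw [hq, one_lt_div hp1]
      linarith
    have hq2 : q < 2 := by
      rw [hq, div_lt_iff₀ hp1]
      linarith
    have hpq : 1 / p + 1 / q = 1 := by
      rw [hq]
      field_simp
      ring
    have hqp : 1 / q + 1 / p = 1 := by rw [add_comm]; exact hpq
    refine hban p hp G fun R hR => ?_
    obtain ⟨f, hf1, hf2⟩ := hU q hq1 hq2 ((R ^ (1 / p)) ^ q) (by positivity)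
    refine ⟨cstF f, ?_, ?_⟩
    · rw [cstF_coe]
      have := hdual q p hq1 hp hqp G f 1 zero_le_one (by rwa [Real.one_rpow])
      rwa [Real.one_rpow] at this
    · rw [cstF_coe, cst_cst]
      intro hR'
      apply hf2
      refine hdual p q hp hq1 hpq G f (R ^ (1 / p)) (by positivity) ?_
      rw [← Real.rpow_mul hR, one_div_mul_cancel hp0.ne', Real.rpow_one]
      exact hR'

/-- the frozen statement from the modules -/
theorem frozen (hban : S_ban.{0}) (hdual : S_dual.{0}) (h : S_cases) (hA : S_A) (hB : S_B) :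
    ∀ p : ℝ, 1 < p → p ≠ 2 → ∀ (G : Type) [Group G],
      (¬ ∃ m : Set G → ℝ, (∀ A, 0 ≤ m A) ∧ m Set.univ = 1 ∧
          (∀ A B : Set G, Disjoint A B → m (A ∪ B) = m A + m B) ∧
          ∀ (g : G) (A : Set G), m ((fun x => g * x) '' A) = m A) →
      ∃ f : G → ℂ,
        (∃ C : ℝ, ∀ ξ : G →₀ ℂ,
          Summable (fun g : G => ‖∑ k ∈ ξ.support, f (g * k⁻¹) * ξ k‖ ^ p) ∧
          ∑' g : G, ‖∑ k ∈ ξ.support, f (g * k⁻¹) * ξ k‖ ^ p
            ≤ C * ∑ k ∈ ξ.support, ‖ξ k‖ ^ p) ∧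
        ¬ (∃ C : ℝ, ∀ ξ : G →₀ ℂ,
          Summable (fun g : G =>
            ‖∑ k ∈ ξ.support, starRingEnd ℂ (f ((g * k⁻¹)⁻¹)) * ξ k‖ ^ p) ∧
          ∑' g : G, ‖∑ k ∈ ξ.support, starRingEnd ℂ (f ((g * k⁻¹)⁻¹)) * ξ k‖ ^ p
            ≤ C * ∑ k ∈ ξ.support, ‖ξ k‖ ^ p) := by
  intro p hp hp2 G _ hG
  exact asmI hban hdual h hA hB G hG p hp hp2

end Pool.Agent.PI
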