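import Pool.Agent.Lib.MP_830418_an.Full.Iface
import Pool.Agent.Lib.MP_830418_an.Grp.SCases
import Pool.Agent.Lib.MP_830418_an.CB.CondU
import Pool.Agent.Lib.MP_830418_an.C1.SA
import Pool.Agent.Lib.MP_830418_an.Full60.Asm
import Pool.Agent.Lib.MP_830418_an.Full60.P_chn
import Pool.Agent.Lib.MP_830418_an.Full60.P_cut
import Pool.Agent.Lib.MP_830418_an.Full60.P_exp
import Pool.Agent.Lib.MP_830418_an.Full60.P_gen
import Pool.Agent.Lib.MP_830418_an.Full60.P_lwr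
import Pool.Agent.Lib.MP_830418_an.Full60.P_nmu
import Pool.Agent.Lib.MP_830418_an.Full60.P_rep
import Pool.Agent.Lib.MP_830418_an.Full60.P_sgl
import Pool.Agent.Lib.MP_830418_an.Full60.P_stp
import Pool.Agent.Lib.MP_830418_an.Full60.P_tv
import Pool.Agent.Lib.MP_830418_an.Full60.P_up
import Pool.Agent.Lib.MP_830418_an.Full60.P_xtr
import Pool.Agent.Lib.MP_830418_an.Flat.P_ban
import Pool.Agent.Lib.MP_830418_an.Flat.P_dual

/-!
Problem MP_830418_an: the frozen statement S05239 from the modules.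

* `t_cases` (Grp): a group without mean satisfies Case A or Case B;
* `C1.t_A` (C1): Case A gives unbounded ratios;
* `t_U`, `t_B` (Full60, CB): Case B gives unbounded ratios;
* `p_ban`, `p_dual` (Flat): Banach-Steinhaus and duality.
-/

namespace Pool.Agent.PI

/-- Theorem 4: the data of Case B give unbounded ratios -/
theorem t_U : UC.S_U.{0} :=
  UC.asm_U UC.p_rep UC.p_up UC.p_chn (UC.p_stp (UC.p_cut UC.p_sgl) UC.p_exp UC.p_gen)
    (UC.p_tv (UC.p_cut UC.p_sgl)) UC.p_lwr UC.p_nmu UC.p_xtr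

theorem t_B : S_B := PCB.s_B t_U

theorem t_frozen :
    ∀ p : ℝ, 1 < p → p ≠ 2 → ∀ (G : Type) [Group G],
      (¬ ∃ m : Set G → ℝ, (∀ A, 0 ≤ m A) ∧ m Set.univ = 1 ∧
          (∀ A B : Set G, Disjoint A B → m (A ∪ B) = m A + m B) ∧
          ∀ (g : G) (A : Set G), m ((fun x => g * x) '' A) = m A) →
      ∃ f : G → ℂ,
        (∃ C : ℝ, ∀ ξ : G →₀ ℂ,
          Summable (fun g : G => ‖∑ k ∈ ξ.support, f (g * k⁻¹) * ξ k‖ ^ p) ∧
          ∑' g : G, ‖∑ k ∈ ξ.support, f (g * k⁻¹) * ξ k‖ ^ p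
            ≤ C * ∑ k ∈ ξ.support, ‖ξ k‖ ^ p) ∧
        ¬ (∃ C : ℝ, ∀ ξ : G →₀ ℂ,
          Summable (fun g : G =>
            ‖∑ k ∈ ξ.support, starRingEnd ℂ (f ((g * k⁻¹)⁻¹)) * ξ k‖ ^ p) ∧
          ∑' g : G, ‖∑ k ∈ ξ.support, starRingEnd ℂ (f ((g * k⁻¹)⁻¹)) * ξ k‖ ^ p
            ≤ C * ∑ k ∈ ξ.support, ‖ξ k‖ ^ p) :=
  frozen PC.p_ban PC.p_dual t_cases C1.t_A t_B

end Pool.Agent.PI
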